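import Pool.Agent.Lib.MP_dcaa2d_sau.Z

/-!
# MP_dcaa2d_co: an upper bound for the critical radius of the unit ball

For every packing of at least two unit balls with centres `X` in the Euclidean space of dimension
`d ≥ 2` the volume of `X + 2 B` is at most the volume of `conv X + ρ B` for
`ρ = 2 (1999/2000)^(1/d)`, and for `ρ = 2 (16/√d)^(1/d)` if `d ≥ 1000`. So for these `ρ` (and larger
ones) finite packings are not denser than infinite ones, and the critical radius is at most `ρ`.

The parts of the Voronoi cells in the balls of radius `2` are compared with the parts of the cells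
in `conv X + ρ B` on the half planes through a line which contains a segment of `conv X`; in polar
coordinates of the half plane this is an inequality between two integrals over the line.
-/

set_option autoImplicit false

open MeasureTheory Metric Set Filter Topology
open scoped Pointwise ENNReal

namespace Pool.Agent.Results.MP_dcaa2d_co.CriticalRadius

open Pool.Agent.Sausage

theorem half_pow {d : ℕ} (hd : 2 ≤ d) {q : ℝ} (hq : 0 < q) :
    (2 * q ^ ((1 : ℝ) / d) / 2) ^ d = q := by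
  rw [mul_div_cancel_left₀ _ (two_ne_zero), one_div]
  exact Real.rpow_inv_natCast_pow hq.le (by omega)

/-- the comparison for the two radii -/
theorem packLe {d : ℕ} (hd : 2 ≤ d) {r : ℝ} (hr : r = 2 * (1999 / 2000 : ℝ) ^ ((1 : ℝ) / d) ∨
    (1000 ≤ d ∧ r = 2 * (16 / Real.sqrt d) ^ ((1 : ℝ) / d))) : 0 < r ∧ PackLe d r := by
  rcases hr with rfl | ⟨h1000, rfl⟩
  · refine ⟨by positivity, packLe_of_num hd (num_small hd) (by positivity) ?_⟩
    exact half_pow hd (by norm_num)
  · have hd0 : 0 < Real.sqrt d := Real.sqrt_pos.2 (by exact_mod_cast (by omega : 0 < d))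
    refine ⟨by positivity, packLe_of_num hd (num_large h1000) (by positivity) ?_⟩
    exact half_pow hd (by positivity)

theorem criticalRadius_le {d : ℕ} (hd : 2 ≤ d) {r : ℝ} (hr : 0 < r) (h : PackLe d r) :
    criticalRadius d ≤ r :=
  csInf_le ⟨0, fun _ h => h.1.le⟩ ⟨hr, tendsto_deltaN hd hr h le_rfl⟩

theorem small_le {d : ℕ} (hd : 2 ≤ d) :
    2 * (1999 / 2000 : ℝ) ^ ((1 : ℝ) / d) ≤ 2 - 1 / (1000 * d) := by
  have hd' : (2 : ℝ) ≤ d := by exact_mod_cast hd
  have h1 := rpow_one_add_le_one_add_mul_self (s := -(1 / 2000)) (p := 1 / (d : ℝ))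
    (by norm_num) (by positivity) (by rw [div_le_one (by linarith)]; linarith)
  have h2 : (1 : ℝ) + -(1 / 2000) = 1999 / 2000 := by norm_num
  rw [h2] at h1
  have h3 : 1 / (1000 * (d : ℝ)) = 2 * (1 / (d : ℝ) * (1 / 2000)) := by
    field_simp
    norm_num
  rw [h3]
  linarith

theorem large_le {d : ℕ} (hd : 1000 ≤ d) :
    2 * (16 / Real.sqrt d) ^ ((1 : ℝ) / d) ≤ 2 - (Real.log d - 6) / d := by
  have hd' : (1000 : ℝ) ≤ d := by exact_mod_cast hd
  have hd0 : (0 : ℝ) < d := by linarith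
  have hs : 0 < Real.sqrt d := Real.sqrt_pos.2 hd0
  set L := Real.log d with hL
  have hlog16 : Real.log 16 < 2.7726 := by
    have h1 : Real.log 16 = 4 * Real.log 2 := by
      rw [show (16 : ℝ) = 2 ^ (4 : ℕ) by norm_num, Real.log_pow]
      norm_num
    have h2 := Real.log_two_lt_d9
    rw [h1]
    linarith
  set x : ℝ := (L / 2 - Real.log 16) / d with hx
  have hexp : (16 / Real.sqrt d) ^ ((1 : ℝ) / d) = Real.exp (-x) := by
    rw [Real.rpow_def_of_pos (by positivity), Real.log_div (by norm_num) hs.ne',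
      Real.log_sqrt hd0.le]
    congr 1
    rw [hx]
    field_simp
    ring
  -- `log d ≥ 6`
  have hL6 : 6 ≤ L := by
    rw [hL, Real.le_log_iff_exp_le hd0]
    have h1 : Real.exp 6 = Real.exp 1 ^ (6 : ℕ) := by
      rw [← Real.exp_nat_mul]
      norm_num
    have h2 := Real.exp_one_lt_d9
    have h3 : Real.exp 1 ^ 6 ≤ (2.72 : ℝ) ^ 6 :=
      pow_le_pow_left₀ (Real.exp_pos 1).le (by linarith) 6
    rw [h1]
    refine h3.trans (le_trans ?_ hd')
    norm_num
  -- `log d ≤ 4 d^(1/4)`
  have hLsq : L ^ 2 ≤ 16 * Real.sqrt d := by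
    have h1 : L = 4 * Real.log (Real.sqrt (Real.sqrt d)) := by
      rw [Real.log_sqrt hs.le, Real.log_sqrt hd0.le]
      ring
    have h2 : Real.log (Real.sqrt (Real.sqrt d)) ≤ Real.sqrt (Real.sqrt d) :=
      (Real.log_le_sub_one_of_pos (Real.sqrt_pos.2 hs)).trans (by linarith)
    have h3 : Real.sqrt (Real.sqrt d) ^ 2 = Real.sqrt d := Real.sq_sqrt hs.le
    have h4 : 0 ≤ Real.log (Real.sqrt (Real.sqrt d)) := by
      linarith
    calc L ^ 2 = 16 * Real.log (Real.sqrt (Real.sqrt d)) ^ 2 := by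
          rw [h1]
          ring
      _ ≤ 16 * Real.sqrt (Real.sqrt d) ^ 2 := by
          refine mul_le_mul_of_nonneg_left (pow_le_pow_left₀ h4 h2 2) (by norm_num)
      _ = 16 * Real.sqrt d := by rw [h3]
  have hsd : Real.sqrt d * Real.sqrt d = d := Real.mul_self_sqrt hd0.le
  have hs31 : 31 ≤ Real.sqrt d := Real.le_sqrt_of_sq_le (by norm_num; linarith)
  have hx0 : 0 ≤ x := by
    rw [hx]
    exact div_nonneg (by linarith) hd0.le
  have h1 : Real.exp (-x) ≤ 1 - x + x ^ 2 := by
    rw [Real.exp_neg, inv_le_comm₀ (Real.exp_pos x) (by nlinarith)]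
    refine le_trans ?_ (Real.add_one_le_exp x)
    rw [inv_le_iff_one_le_mul₀ (by nlinarith)]
    nlinarith [mul_nonneg hx0 (mul_nonneg hx0 hx0)]
  have hxd : x * d = L / 2 - Real.log 16 := by
    rw [hx]
    field_simp
  -- `2 x² ≤ 0.45 / d`
  have h2 : 2 * x ^ 2 * d ≤ 0.45 := by
    have hxL : x * d ≤ L / 2 := by
      have : 0 ≤ Real.log 16 := Real.log_nonneg (by norm_num)
      linarith
    have h3 : (x * d) ^ 2 ≤ (L / 2) ^ 2 := pow_le_pow_left₀ (by positivity) hxL 2
    have h4 : 2 * x ^ 2 * d * d ≤ 8 * Real.sqrt d := by nlinarith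
    have h5 : 8 * Real.sqrt d ≤ 0.45 * d := by nlinarith
    by_contra h6
    push Not at h6
    nlinarith
  rw [hexp]
  have h3 : (L - 6) / d = 2 * x - (6 - 2 * Real.log 16) / d := by
    rw [hx]
    field_simp
    ring
  have h4 : 2 * x ^ 2 ≤ (6 - 2 * Real.log 16) / d := by
    rw [le_div_iff₀ hd0]
    linarith
  rw [h3]
  linarith

/-- **The critical radius of the unit ball.** Let `d ≥ 2`. Let `r = 2 (1999/2000)^(1/d)`, or
`d ≥ 1000` and `r = 2 (16/√d)^(1/d)`. For every finite packing of unit balls with at least two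
centres `X` the union of the balls of radius `2` has at most the volume of `conv X + r B`, and the
density of `X` in `conv X + r B` is at most `δ(B^d)`. For all `ρ ≥ r` the limit of `Δ_n(ρ)` is
`Δ(B^d)`. The critical radius is at most `2 - 1/(1000 d)`, and it is at most `2 - (log d - 6)/d` if
`d ≥ 1000`. -/
theorem result (d : ℕ) (hd : 2 ≤ d) :
    (∀ r : ℝ, (r = 2 * (1999 / 2000 : ℝ) ^ ((1 : ℝ) / d) ∨
        (1000 ≤ d ∧ r = 2 * (16 / Real.sqrt d) ^ ((1 : ℝ) / d))) →
      (∀ X : Finset (E d), IsPacking (X : Set (E d)) → 2 ≤ X.card →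
        volume (⋃ x ∈ X, closedBall x 2) ≤
          volume (convexHull ℝ (X : Set (E d)) + closedBall (0 : E d) r) ∧
        (X.card : ℝ) * kappa d ≤ maxDensity d * parVol (X : Set (E d)) r) ∧
      (∀ ρ : ℝ, r ≤ ρ → Tendsto (deltaN d ρ) atTop (𝓝 (kappa d / maxDensity d))) ∧
      criticalRadius d ≤ r) ∧
    criticalRadius d ≤ 2 - 1 / (1000 * d) ∧
    (1000 ≤ d → criticalRadius d ≤ 2 - (Real.log d - 6) / d) := by
  have key : ∀ r : ℝ, (r = 2 * (1999 / 2000 : ℝ) ^ ((1 : ℝ) / d) ∨
        (1000 ≤ d ∧ r = 2 * (16 / Real.sqrt d) ^ ((1 : ℝ) / d))) → criticalRadius d ≤ r :=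
    fun r hr => criticalRadius_le hd (packLe hd hr).1 (packLe hd hr).2
  refine ⟨fun r hr => ⟨fun X hX h2 => ⟨(packLe hd hr).2 X hX h2, ?_⟩,
    fun ρ hρ => tendsto_deltaN hd (packLe hd hr).1 (packLe hd hr).2 hρ, key r hr⟩,
    (key _ (Or.inl rfl)).trans (small_le hd), fun h1000 =>
      (key _ (Or.inr ⟨h1000, rfl⟩)).trans (large_le h1000)⟩
  have h3 := card_le_of_packLe (by omega) (packLe hd hr).2 le_rfl hX h2
  have h4 := mul_le_mul_of_nonneg_right h3 (kappa_pos d).le
  rw [maxDensity_eq (by omega)]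
  linarith

end Pool.Agent.Results.MP_dcaa2d_co.CriticalRadius
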