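import Mathlib
import Pool.Agent.Lib.SX.RhoC

/-!
# The sausage is optimal up to the critical radius in large dimensions

For all large `d`, all `0 < ρ ≤ ρ_c(B^d)` and all `n ≥ 1` the sausage of `n` unit balls has the
least volume `V(conv X + ρ B^d)` of all packings `X` of `n` unit balls. Moreover
`ρ_c(B^d) ≥ √(2π/e) - o(1)` as `d → ∞`.
-/

set_option autoImplicit false

open MeasureTheory Metric Set Filter Topology
open scoped Pointwise

namespace Pool.Agent.Results.MP_dcaa2d_co.SausageExact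

/-- The Euclidean space of dimension `d`. -/
abbrev E (d : ℕ) := EuclideanSpace ℝ (Fin d)

/-- `κ_m`: the volume of the unit ball of `ℝ^m`. -/
noncomputable def kappa (m : ℕ) : ℝ := (volume (closedBall (0 : E m) 1)).toReal

/-- The unit balls with centers in `X` form a packing: distinct centers have distance at least
`2`. -/
def IsPacking {d : ℕ} (X : Set (E d)) : Prop := ∀ x ∈ X, ∀ y ∈ X, x ≠ y → 2 ≤ dist x y

/-- The volume `V(C + ρ B^d)`, where `C` is the convex hull of `X`. -/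
noncomputable def parVol {d : ℕ} (X : Finset (E d)) (ρ : ℝ) : ℝ :=
  (volume (convexHull ℝ (X : Set (E d)) + closedBall (0 : E d) ρ)).toReal

/-- `Δ_n(ρ)`: the infimum of `V(C + ρ B^d) / n` over all packings of `n` unit balls in `ℝ^d`. -/
noncomputable def deltaN (d : ℕ) (ρ : ℝ) (n : ℕ) : ℝ :=
  sInf {v : ℝ | ∃ X : Finset (E d), X.card = n ∧ IsPacking (X : Set (E d)) ∧
    v = parVol X ρ / n}

/-- The upper density of the packing of the unit balls with centers in `P`. -/
noncomputable def upperDensity {d : ℕ} (P : Set (E d)) : ℝ :=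
  limsup (fun R : ℝ => (volume (closedBall (0 : E d) R ∩ ⋃ x ∈ P, closedBall x 1)).toReal /
    (volume (closedBall (0 : E d) R)).toReal) atTop

/-- `δ(B^d)`: the maximal density of a packing of unit balls in `ℝ^d`. -/
noncomputable def maxDensity (d : ℕ) : ℝ :=
  sSup {v : ℝ | ∃ P : Set (E d), IsPacking P ∧ v = upperDensity P}

/-- The set of all `ρ > 0` with `Δ(B^d, ρ) = lim Δ_n(ρ) = κ_d / δ(B^d) = Δ(B^d)`. -/
def criticalSet (d : ℕ) : Set ℝ :=
  {ρ : ℝ | 0 < ρ ∧ Tendsto (deltaN d ρ) atTop (𝓝 (kappa d / maxDensity d))}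

/-- The critical radius `ρ_c(B^d)`. -/
noncomputable def criticalRadius (d : ℕ) : ℝ := sInf (criticalSet d)

/-- The centers of the sausage of `n` unit balls in the direction `u`: the points `2 i u` with
`0 ≤ i < n`. -/
noncomputable def sausage {d : ℕ} (u : E d) (n : ℕ) : Finset (E d) := by
  classical
  exact (Finset.range n).image fun i : ℕ => (2 * (i : ℝ)) • u

theorem maxDensity_eq (d : ℕ) : maxDensity d = Pool.Agent.Sausage.maxDensity d := by
  unfold maxDensity Pool.Agent.Sausage.maxDensity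
  congr 1

theorem mem_sausage {d : ℕ} {u : E d} {n : ℕ} {x : E d} :
    x ∈ sausage u n ↔ ∃ i : ℕ, i < n ∧ (2 * (i : ℝ)) • u = x := by
  unfold sausage
  simp only [Finset.mem_image, Finset.mem_range]

theorem dist_sausage {d : ℕ} {u : E d} (hu : ‖u‖ = 1) (s t : ℝ) :
    dist (s • u) (t • u) = |s - t| := by
  rw [dist_eq_norm, ← sub_smul, norm_smul, hu, mul_one, Real.norm_eq_abs]

theorem card_sausage {d : ℕ} {u : E d} (hu : ‖u‖ = 1) (n : ℕ) : (sausage u n).card = n := by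
  classical
  unfold sausage
  rw [Finset.card_image_of_injective, Finset.card_range]
  intro i j hij
  have h := dist_sausage hu (2 * (i : ℝ)) (2 * (j : ℝ))
  simp only at hij
  rw [hij, dist_self] at h
  have h2 := abs_eq_zero.mp h.symm
  have h3 : (i : ℝ) = j := by linarith
  exact_mod_cast h3

theorem isPacking_sausage {d : ℕ} {u : E d} (hu : ‖u‖ = 1) (n : ℕ) :
    IsPacking (sausage u n : Set (E d)) := by
  intro x hx y hy hxy
  obtain ⟨i, -, rfl⟩ := mem_sausage.1 (Finset.mem_coe.1 hx)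
  obtain ⟨j, -, rfl⟩ := mem_sausage.1 (Finset.mem_coe.1 hy)
  rw [dist_sausage hu]
  have hij : i ≠ j := fun h => hxy (by rw [h])
  have h1 : (1 : ℝ) ≤ |(i : ℝ) - j| := by
    rcases lt_or_gt_of_ne hij with h | h
    · have h2 : ((i : ℝ) + 1) ≤ j := by exact_mod_cast h
      rw [abs_of_nonpos (by linarith)]
      linarith
    · have h2 : ((j : ℝ) + 1) ≤ i := by exact_mod_cast h
      rw [abs_of_nonneg (by linarith)]
      linarith
  have h2 : (2 * (i : ℝ) - 2 * (j : ℝ)) = 2 * ((i : ℝ) - j) := by ring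
  rw [h2, abs_mul, abs_two]
  linarith

theorem convexHull_sausage {d : ℕ} {u : E d} {n : ℕ} (hn : 1 ≤ n) :
    convexHull ℝ (sausage u n : Set (E d)) ⊆
      segment ℝ ((0 : ℝ) • u) ((2 * ((n : ℝ) - 1)) • u) := by
  have hn1 : (1 : ℝ) ≤ n := by exact_mod_cast hn
  apply convexHull_min _ (convex_segment _ _)
  intro x hx
  obtain ⟨i, hi, rfl⟩ := mem_sausage.1 (Finset.mem_coe.1 hx)
  have hi1 : (i : ℝ) + 1 ≤ n := by exact_mod_cast hi
  rw [segment_eq_image]
  by_cases h : n = 1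
  · refine ⟨0, ⟨le_refl _, zero_le_one⟩, ?_⟩
    have hi0 : i = 0 := by omega
    subst hi0
    simp
  · have hn2 : (2 : ℝ) ≤ n := by exact_mod_cast (by omega : 2 ≤ n)
    refine ⟨(i : ℝ) / ((n : ℝ) - 1), ⟨div_nonneg (Nat.cast_nonneg _) (by linarith), ?_⟩, ?_⟩
    · rw [div_le_one (by linarith)]
      linarith
    · have hne : (n : ℝ) - 1 ≠ 0 := by linarith
      simp only [smul_smul, zero_smul, smul_zero, zero_add]
      congr 1
      field_simp

theorem parVol_sausage_le {d : ℕ} (hd : 1 ≤ d) {u : E d} (hu : ‖u‖ = 1) {ρ : ℝ} (hρ : 0 < ρ)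
    {n : ℕ} (hn : 1 ≤ n) : parVol (sausage u n) ρ ≤
      2 * ((n : ℝ) - 1) * kappa (d - 1) * ρ ^ (d - 1) + kappa d * ρ ^ d := by
  obtain ⟨m, rfl⟩ : ∃ m, d = m + 1 := ⟨d - 1, by omega⟩
  have hm : m + 1 - 1 = m := by omega
  rw [hm]
  have hn1 : (1 : ℝ) ≤ n := by exact_mod_cast hn
  have hk : ∀ j : ℕ, 0 ≤ kappa j := fun j => ENNReal.toReal_nonneg
  have h0 : 0 ≤ 2 * ((n : ℝ) - 1) * kappa m * ρ ^ m + kappa (m + 1) * ρ ^ (m + 1) := by
    have h1 := hk m
    have h2 := hk (m + 1)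
    have h3 : 0 ≤ (n : ℝ) - 1 := by linarith
    positivity
  unfold parVol
  refine ENNReal.toReal_le_of_le_ofReal h0 ?_
  refine (measure_mono (add_subset_add_right (convexHull_sausage hn))).trans ?_
  rw [Pool.Agent.Saus.volume_segment_add _ _ hρ.le, dist_sausage hu, zero_sub, abs_neg,
    abs_of_nonneg (by linarith)]
  refine ENNReal.ofReal_le_ofReal (le_of_eq ?_)
  show Pool.Agent.Saus.kappa (m + 1) * ρ ^ (m + 1) + _ * Pool.Agent.Saus.kappa m * ρ ^ m =
    2 * ((n : ℝ) - 1) * Pool.Agent.Saus.kappa m * ρ ^ m +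
      Pool.Agent.Saus.kappa (m + 1) * ρ ^ (m + 1)
  ring

/-- **The sausage is optimal up to the critical radius in large dimensions.** The critical radius
is at least `√(2π/e) - o(1)` as `d → ∞`, and there is `d₀` such that for all `d ≥ d₀`, all
`0 < ρ ≤ ρ_c(B^d)`, all `n ≥ 1` and all unit vectors `u`, the sausage of `n` unit balls in the
direction `u` has the least volume `V(conv X + ρ B^d)` of all packings of `n` unit balls. -/
theorem result :
    (∀ ε : ℝ, 0 < ε → ∃ d₀ : ℕ, ∀ d : ℕ, d₀ ≤ d →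
      Real.sqrt (2 * Real.pi / Real.exp 1) - ε ≤ criticalRadius d) ∧
    ∃ d₀ : ℕ, ∀ d : ℕ, d₀ ≤ d →
    ∀ ρ : ℝ, 0 < ρ → ρ ≤ criticalRadius d → ∀ n : ℕ, 1 ≤ n → ∀ u : E d, ‖u‖ = 1 →
      (sausage u n).card = n ∧ IsPacking (sausage u n : Set (E d)) ∧
      (∀ X : Finset (E d), X.card = n → IsPacking (X : Set (E d)) →
        parVol (sausage u n) ρ ≤ parVol X ρ) ∧
      parVol (sausage u n) ρ =
        2 * ((n : ℝ) - 1) * kappa (d - 1) * ρ ^ (d - 1) + kappa d * ρ ^ d ∧
      deltaN d ρ n =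
        (2 * ((n : ℝ) - 1) * kappa (d - 1) * ρ ^ (d - 1) + kappa d * ρ ^ d) / n := by
  obtain ⟨d₀, hd₀, h⟩ := Pool.Agent.SX.exact
  have key : ∀ d : ℕ, d₀ ≤ d → ∃ r : ℝ, 0 < r ∧ criticalRadius d = r ∧
      2 * kappa (d - 1) * r ^ (d - 1) = kappa d / maxDensity d := by
    intro d hd
    have hd2 : 2 ≤ d := hd₀.trans hd
    obtain ⟨-, h2, h3⟩ := h d hd
    rw [← maxDensity_eq] at h2 h3
    change ∀ ρ : ℝ, 0 < ρ → Tendsto (deltaN d ρ) atTop
        (𝓝 (min (2 * kappa (d - 1) * ρ ^ (d - 1)) (kappa d / maxDensity d))) at h2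
    change 2 * kappa (d - 1) * ((2 : ℝ) ^ (0.599 : ℝ)) ^ (d - 1) ≤ kappa d / maxDensity d at h3
    have hk : 0 < 2 * kappa (d - 1) := by
      have : 0 < kappa (d - 1) := Pool.Agent.Saus.kappa_pos (d - 1)
      positivity
    set A := kappa d / maxDensity d with hA
    have hpos : (0 : ℝ) < (2 : ℝ) ^ (0.599 : ℝ) := by positivity
    have hd1 : d - 1 ≠ 0 := by omega
    have hA0 : 0 < A := lt_of_lt_of_le (by positivity) h3
    obtain ⟨r, hr0, hr⟩ : ∃ r : ℝ, 0 < r ∧ 2 * kappa (d - 1) * r ^ (d - 1) = A := by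
      refine ⟨(A / (2 * kappa (d - 1))) ^ ((1 : ℝ) / (d - 1 : ℕ)), by positivity, ?_⟩
      rw [one_div, Real.rpow_inv_natCast_pow (by positivity) hd1, mul_comm,
        div_mul_cancel₀ _ hk.ne']
    have hmono : ∀ a b : ℝ, 0 < a → a < b →
        2 * kappa (d - 1) * a ^ (d - 1) < 2 * kappa (d - 1) * b ^ (d - 1) := fun a b ha hab =>
      mul_lt_mul_of_pos_left (pow_lt_pow_left₀ hab ha.le hd1) hk
    have hcrit : IsLeast (criticalSet d) r := by
      refine ⟨⟨hr0, ?_⟩, fun ρ hρ => ?_⟩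
      · have := h2 r hr0
        rwa [min_eq_right hr.ge] at this
      · by_contra hcon
        push Not at hcon
        have h4 : 2 * kappa (d - 1) * ρ ^ (d - 1) < A := hr ▸ hmono ρ r hρ.1 hcon
        have h5 := h2 ρ hρ.1
        rw [min_eq_left h4.le] at h5
        exact absurd (tendsto_nhds_unique h5 hρ.2) h4.ne
    exact ⟨r, hr0, hcrit.csInf_eq, hr⟩
  refine ⟨fun ε hε => ?_, d₀, fun d hd => ?_⟩
  · rcases le_or_gt (Real.sqrt (2 * Real.pi / Real.exp 1) - ε) 0 with hneg | hs0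
    · refine ⟨d₀, fun d hd => ?_⟩
      obtain ⟨r, hr0, hc, -⟩ := key d hd
      rw [hc]
      exact hneg.trans hr0.le
    obtain ⟨d₁, hd₁⟩ := eventually_atTop.1 (Pool.Agent.SX.rho_bound hs0
      (by linarith : Real.sqrt (2 * Real.pi / Real.exp 1) - ε <
        Real.sqrt (2 * Real.pi / Real.exp 1)))
    refine ⟨max d₀ d₁, fun d hd => ?_⟩
    obtain ⟨r, hr0, hc, hr⟩ := key d ((le_max_left _ _).trans hd)
    have hd2 : 2 ≤ d := hd₀.trans ((le_max_left _ _).trans hd)
    have h1 := hd₁ d ((le_max_right _ _).trans hd)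
    rw [← maxDensity_eq] at h1
    change 2 * kappa (d - 1) * (Real.sqrt (2 * Real.pi / Real.exp 1) - ε) ^ (d - 1) ≤
      kappa d / maxDensity d at h1
    rw [← hr] at h1
    have hk : 0 < 2 * kappa (d - 1) := by
      have : 0 < kappa (d - 1) := Pool.Agent.Saus.kappa_pos (d - 1)
      positivity
    rw [hc]
    exact le_of_pow_le_pow_left₀ (by omega) hr0.le (le_of_mul_le_mul_left h1 hk)
  · have hd2 : 2 ≤ d := hd₀.trans hd
    obtain ⟨h1, -, -⟩ := h d hd
    rw [← maxDensity_eq] at h1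
    change ∀ ρ : ℝ, 0 < ρ → 2 * kappa (d - 1) * ρ ^ (d - 1) ≤ kappa d / maxDensity d →
        ∀ X : Finset (E d), X.Nonempty → IsPacking (X : Set (E d)) →
          2 * ((X.card : ℝ) - 1) * kappa (d - 1) * ρ ^ (d - 1) + kappa d * ρ ^ d ≤
            parVol X ρ at h1
    have hk : 0 < 2 * kappa (d - 1) := by
      have : 0 < kappa (d - 1) := Pool.Agent.Saus.kappa_pos (d - 1)
      positivity
    obtain ⟨r, hr0, hc, hr⟩ := key d hd
    rw [hc]
    intro ρ hρ hρr n hn u hu
    have hle : 2 * kappa (d - 1) * ρ ^ (d - 1) ≤ kappa d / maxDensity d := by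
      rw [← hr]
      exact mul_le_mul_of_nonneg_left (pow_le_pow_left₀ hρ.le hρr _) hk.le
    have hopt : ∀ X : Finset (E d), X.card = n → IsPacking (X : Set (E d)) →
        2 * ((n : ℝ) - 1) * kappa (d - 1) * ρ ^ (d - 1) + kappa d * ρ ^ d ≤ parVol X ρ := by
      intro X hXn hX
      have h4 := h1 ρ hρ hle X (Finset.card_pos.1 (by omega)) hX
      rwa [hXn] at h4
    have hcard := card_sausage hu n
    have hpack := isPacking_sausage hu n
    have hle2 := parVol_sausage_le (by omega : 1 ≤ d) hu hρ hn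
    have heq := le_antisymm hle2 (hopt _ hcard hpack)
    exact ⟨hcard, hpack, fun X hXn hX => heq ▸ hopt X hXn hX, heq,
      (Pool.Agent.Saus.deltaN_eq hd2 hρ (h1 ρ hρ hle)).1 n hn⟩

end Pool.Agent.Results.MP_dcaa2d_co.SausageExact
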