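import Mathlib
import Pool.Agent.Lib.SX.FinE

/-!
# The strong sausage conjecture in large dimensions

For all large `d` the sausage radius and the critical radius of the unit ball of `ℝ^d` are equal,
and the limit of `Δ_n(ρ)` is the minimum of `2 κ_(d-1) ρ^(d-1)` and `κ_d / δ(B^d)` for all `ρ > 0`.

A diametral pair `x₁, x₂` of a packing `X` and a center `z` which maximizes the area of the
triangle `x₁ x₂ z` are fixed. If the triangle is large compared with the number of balls, then the
parallel body of the triangle has a large volume. Otherwise there is a triangle with vertex `x` in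
the convex hull `K` of `X`, within the distance `1/400` from `x`, with an area which is not very
small, for all but few `x` in `X`. There are two cases for such an `x`. Either the part of the ball
with radius `2` and center `x` outside the parallel body `K + (ρ - 1/50) B` is small; then the
density bound for infinite packings applies to the cell of `x`. Or the Brunn-Minkowski inequality
gives a large part of the outer layer of `K + ρ B` near `x`, and a point of the layer is in such
parts of a bounded number of centers only.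
-/

set_option autoImplicit false

open MeasureTheory Metric Set Filter Topology
open scoped Pointwise

namespace Pool.Agent.Results.MP_dcaa2d_co.StrongSausage

/-- The Euclidean space of dimension `d`. -/
abbrev E (d : ℕ) := EuclideanSpace ℝ (Fin d)

/-- `κ_m`: the volume of the unit ball of `ℝ^m`. -/
noncomputable def kappa (m : ℕ) : ℝ := (volume (closedBall (0 : E m) 1)).toReal

/-- The unit balls with centers in `X` form a packing: distinct centers have distance at least
`2`. -/
def IsPacking {d : ℕ} (X : Set (E d)) : Prop := ∀ x ∈ X, ∀ y ∈ X, x ≠ y → 2 ≤ dist x y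

/-- The volume `V(C + ρ B^d)`, where `C` is the convex hull of `X`. -/
noncomputable def parVol {d : ℕ} (X : Finset (E d)) (ρ : ℝ) : ℝ :=
  (volume (convexHull ℝ (X : Set (E d)) + closedBall (0 : E d) ρ)).toReal

/-- `Δ_n(ρ)`: the infimum of `V(C + ρ B^d) / n` over all packings of `n` unit balls in `ℝ^d`. -/
noncomputable def deltaN (d : ℕ) (ρ : ℝ) (n : ℕ) : ℝ :=
  sInf {v : ℝ | ∃ X : Finset (E d), X.card = n ∧ IsPacking (X : Set (E d)) ∧
    v = parVol X ρ / n}

/-- The upper density of the packing of the unit balls with centers in `P`. -/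
noncomputable def upperDensity {d : ℕ} (P : Set (E d)) : ℝ :=
  limsup (fun R : ℝ => (volume (closedBall (0 : E d) R ∩ ⋃ x ∈ P, closedBall x 1)).toReal /
    (volume (closedBall (0 : E d) R)).toReal) atTop

/-- `δ(B^d)`: the maximal density of a packing of unit balls in `ℝ^d`. -/
noncomputable def maxDensity (d : ℕ) : ℝ :=
  sSup {v : ℝ | ∃ P : Set (E d), IsPacking P ∧ v = upperDensity P}

/-- The set of all `ρ > 0` with `Δ(B^d, ρ) = lim Δ_n(ρ) = κ_d / δ(B^d) = Δ(B^d)`. -/
def criticalSet (d : ℕ) : Set ℝ :=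
  {ρ : ℝ | 0 < ρ ∧ Tendsto (deltaN d ρ) atTop (𝓝 (kappa d / maxDensity d))}

/-- The set of all `ρ > 0` with `Δ(B^d, ρ) = lim Δ_n(ρ) = 2 κ_(d-1) ρ^(d-1)`. -/
def sausageSet (d : ℕ) : Set ℝ :=
  {ρ : ℝ | 0 < ρ ∧ Tendsto (deltaN d ρ) atTop (𝓝 (2 * kappa (d - 1) * ρ ^ (d - 1)))}

/-- The critical radius `ρ_c(B^d)`. -/
noncomputable def criticalRadius (d : ℕ) : ℝ := sInf (criticalSet d)

/-- The sausage radius `ρ_s(B^d)`. -/
noncomputable def sausageRadius (d : ℕ) : ℝ := sSup (sausageSet d)

theorem maxDensity_eq (d : ℕ) : maxDensity d = Pool.Agent.Sausage.maxDensity d := by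
  unfold maxDensity Pool.Agent.Sausage.maxDensity
  congr 1

/-- **The strong sausage conjecture in large dimensions.** There is `d₀` such that for all
`d ≥ d₀` the sausage radius and the critical radius are equal, they are attained, and their common
value `r` satisfies `2 κ_(d-1) r^(d-1) = κ_d / δ(B^d)`; moreover the limit of `Δ_n(ρ)` is the
minimum of `2 κ_(d-1) ρ^(d-1)` and `κ_d / δ(B^d)` for every `ρ > 0`. -/
theorem result : ∃ d₀ : ℕ, ∀ d : ℕ, d₀ ≤ d →
    sausageRadius d = criticalRadius d ∧
    IsGreatest (sausageSet d) (sausageRadius d) ∧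
    IsLeast (criticalSet d) (criticalRadius d) ∧
    2 * kappa (d - 1) * criticalRadius d ^ (d - 1) = kappa d / maxDensity d ∧
    ∀ ρ : ℝ, 0 < ρ → Tendsto (deltaN d ρ) atTop
      (𝓝 (min (2 * kappa (d - 1) * ρ ^ (d - 1)) (kappa d / maxDensity d))) := by
  obtain ⟨d₀, hd₀, h⟩ := Pool.Agent.SX.exact
  refine ⟨d₀, fun d hd => ?_⟩
  have hd2 : 2 ≤ d := hd₀.trans hd
  obtain ⟨-, h2, h3⟩ := h d hd
  rw [← maxDensity_eq] at h2 h3
  change ∀ ρ : ℝ, 0 < ρ → Tendsto (deltaN d ρ) atTop
      (𝓝 (min (2 * kappa (d - 1) * ρ ^ (d - 1)) (kappa d / maxDensity d))) at h2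
  change 2 * kappa (d - 1) * ((2 : ℝ) ^ (0.599 : ℝ)) ^ (d - 1) ≤ kappa d / maxDensity d at h3
  have hk : 0 < 2 * kappa (d - 1) := by
    have : 0 < kappa (d - 1) := Pool.Agent.Saus.kappa_pos (d - 1)
    positivity
  set A := kappa d / maxDensity d with hA
  set f : ℝ → ℝ := fun ρ => 2 * kappa (d - 1) * ρ ^ (d - 1) with hf
  have hd1 : d - 1 ≠ 0 := by omega
  have hmono : ∀ a b : ℝ, 0 < a → a < b → f a < f b := fun a b ha hab =>
    mul_lt_mul_of_pos_left (pow_lt_pow_left₀ hab ha.le hd1) hk
  have hA0 : 0 < A := lt_of_lt_of_le (by positivity) h3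
  -- the common radius
  obtain ⟨r, hr0, hr⟩ : ∃ r : ℝ, 0 < r ∧ f r = A := by
    refine ⟨(A / (2 * kappa (d - 1))) ^ ((1 : ℝ) / (d - 1 : ℕ)), by positivity, ?_⟩
    simp only [hf]
    rw [one_div, Real.rpow_inv_natCast_pow (by positivity) hd1, mul_comm,
      div_mul_cancel₀ _ hk.ne']
  have hsaus : IsGreatest (sausageSet d) r := by
    refine ⟨⟨hr0, ?_⟩, fun ρ hρ => ?_⟩
    · have := h2 r hr0
      rwa [min_eq_left hr.le] at this
    · by_contra hcon
      push Not at hcon
      have h4 : A < f ρ := hr ▸ hmono r ρ hr0 hcon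
      have h5 := h2 ρ hρ.1
      rw [min_eq_right h4.le] at h5
      exact absurd (tendsto_nhds_unique h5 hρ.2) h4.ne
  have hcrit : IsLeast (criticalSet d) r := by
    refine ⟨⟨hr0, ?_⟩, fun ρ hρ => ?_⟩
    · have := h2 r hr0
      rwa [min_eq_right hr.ge] at this
    · by_contra hcon
      push Not at hcon
      have h4 : f ρ < A := hr ▸ hmono ρ r hρ.1 hcon
      have h5 := h2 ρ hρ.1
      rw [min_eq_left h4.le] at h5
      exact absurd (tendsto_nhds_unique h5 hρ.2) h4.ne
  have hs : sausageRadius d = r := hsaus.csSup_eq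
  have hc : criticalRadius d = r := hcrit.csInf_eq
  rw [hs, hc]
  exact ⟨rfl, hsaus, hcrit, hr, h2⟩

end Pool.Agent.Results.MP_dcaa2d_co.StrongSausage
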